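import Pool.Agent.Run7.h889.Iface
import Pool.Agent.Run7.h889.Ftr
import Pool.Agent.Run7.h889.QG
import Pool.Agent.Run7.h892.P889.Base

/-!
# MP_7dd379_ag, piece DESC: descent of the `ℚ`-Gorenstein property
-/

set_option autoImplicit false
set_option linter.unusedSimpArgs false
set_option linter.unusedVariables false
set_option linter.unusedSectionVars false

namespace Run7.h622.P889

open Module IsLocalRing Run7.h889 Run7.h892.P889
open scoped TensorProduct

universe u v w

section trace

variable {p : ℕ} [hp : Fact p.Prime] {D : Type u} [CommRing D] [IsDomain D] [CharP D p]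

/-- the fraction field is F-finite -/
theorem ffinite_frac (h : IsFFinite p D) : IsFFinite p (FractionRing D) := by
  classical
  obtain ⟨s, hs⟩ := h
  refine ⟨s.image (algebraMap D (FractionRing D)), fun x => ?_⟩
  obtain ⟨⟨a, b⟩, hab⟩ := IsLocalization.surj (nonZeroDivisors D) x
  have hb : algebraMap D (FractionRing D) b ≠ 0 :=
    IsFractionRing.to_map_ne_zero_of_mem_nonZeroDivisors b.2
  obtain ⟨c, hc⟩ := hs (a * (b : D) ^ (p - 1))
  have hinj := IsFractionRing.injective D (FractionRing D)
  have hp1 : p = (p - 1) + 1 := (Nat.sub_add_cancel hp.out.one_le).symm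
  let c' : FractionRing D → FractionRing D := fun z =>
    if hz : ∃ y : D, y ∈ s ∧ algebraMap D (FractionRing D) y = z then
      algebraMap D (FractionRing D) (c hz.choose) / algebraMap D (FractionRing D) b else 0
  have hc' : ∀ y ∈ s, c' (algebraMap D (FractionRing D) y) =
      algebraMap D (FractionRing D) (c y) / algebraMap D (FractionRing D) b := by
    intro y hy
    have hz : ∃ y' : D, y' ∈ s ∧ algebraMap D (FractionRing D) y' = algebraMap D _ y := ⟨y, hy, rfl⟩
    simp only [c']
    rw [dif_pos hz]
    congr 2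
    exact congrArg c (hinj hz.choose_spec.2)
  refine ⟨c', ?_⟩
  rw [Finset.sum_image (fun y _ y' _ h => hinj h)]
  rw [Finset.sum_congr rfl (fun y hy => by rw [hc' y hy])]
  have h1 : x * algebraMap D (FractionRing D) b ^ p =
      algebraMap D (FractionRing D) (∑ y ∈ s, c y ^ p * y) := by
    rw [← hc, map_mul, map_pow, ← hab]
    conv_lhs => rw [hp1, pow_succ]
    ring
  have h2 : x = algebraMap D (FractionRing D) (∑ y ∈ s, c y ^ p * y) /
      algebraMap D (FractionRing D) b ^ p := by
    rw [← h1, mul_div_cancel_right₀ _ (pow_ne_zero _ hb)]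
  rw [h2, map_sum, Finset.sum_div]
  refine Finset.sum_congr rfl fun y _ => ?_
  rw [map_mul, map_pow, div_pow]
  ring

/-- common denominators of the values of a function on a finite type -/
theorem common_den {ι : Type} [Fintype ι] (x : ι → FractionRing D) :
    ∃ (t : D) (e : ι → D), t ≠ 0 ∧ ∀ i, x i * algebraMap D _ t = algebraMap D _ (e i) := by
  classical
  obtain ⟨b, hb⟩ := IsLocalization.exist_integer_multiples_of_finset (nonZeroDivisors D)
    (Finset.univ.image x)
  choose e he using fun i => hb (x i) (Finset.mem_image_of_mem _ (Finset.mem_univ i))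
  refine ⟨b, e, nonZeroDivisors.ne_zero b.2, fun i => ?_⟩
  rw [he i, Algebra.smul_def, mul_comm]

/-- a map of `FHom p 1 D` is given by the trace of the fraction field -/
theorem exists_c (T : FTr (p ^ 1) (FractionRing D)) (ψ : FHom p 1 D) :
    ∃ c : FractionRing D, ∀ d : D, algebraMap D _ (ψ.1 d) = T.Tr (c * algebraMap D _ d) := by
  obtain ⟨s, a, hs0, hs⟩ := common_den T.b
  have hS : algebraMap D (FractionRing D) s ≠ 0 := by
    rw [Ne, IsFractionRing.to_map_eq_zero_iff]; exact hs0
  have hp1 : p = (p - 1) + 1 := (Nat.sub_add_cancel hp.out.one_le).symm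
  refine ⟨∑ l, (algebraMap D _ (ψ.1 (a l * s ^ (p - 1))) / algebraMap D _ s) ^ p ^ 1 * T.b' l,
    fun d => ?_⟩
  obtain ⟨t, e, ht0, ht⟩ := common_den fun l => T.Tr (T.b' l * algebraMap D _ d)
  have hT : algebraMap D (FractionRing D) t ≠ 0 := by
    rw [Ne, IsFractionRing.to_map_eq_zero_iff]; exact ht0
  have hinj := IsFractionRing.injective D (FractionRing D)
  have h1 : (t * s) ^ p ^ 1 * d = ∑ l, e l ^ p ^ 1 * (a l * s ^ (p - 1)) := by
    apply hinj
    rw [map_mul, map_pow, map_mul, map_sum]
    have h2 := T.sum_eq (algebraMap D (FractionRing D) d)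
    rw [h2, Finset.mul_sum]
    refine Finset.sum_congr rfl fun l _ => ?_
    rw [RingHom.map_mul, RingHom.map_pow, RingHom.map_mul, RingHom.map_pow, ← ht l, ← hs l]
    have h3 : algebraMap D (FractionRing D) s ^ p ^ 1 = algebraMap D (FractionRing D) s ^ (p - 1) *
        algebraMap D (FractionRing D) s := by rw [← pow_succ, ← hp1, pow_one]
    rw [mul_pow, mul_pow, h3]
    ring
  have h4 : t * s * ψ.1 d = ∑ l, e l * ψ.1 (a l * s ^ (p - 1)) := by
    rw [← ψ.2, h1, map_sum]
    exact Finset.sum_congr rfl fun l _ => ψ.2 _ _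
  rw [Finset.sum_mul, map_sum]
  have h5 : ∀ l, T.Tr ((algebraMap D (FractionRing D) (ψ.1 (a l * s ^ (p - 1))) /
      algebraMap D _ s) ^ p ^ 1 * T.b' l * algebraMap D _ d) =
      algebraMap D (FractionRing D) (e l * ψ.1 (a l * s ^ (p - 1))) /
        algebraMap D (FractionRing D) (t * s) := by
    intro l
    rw [mul_assoc, T.Tr_pow_mul, RingHom.map_mul, RingHom.map_mul, ← ht l]
    field_simp
  rw [Finset.sum_congr rfl (fun l _ => h5 l), ← Finset.sum_div, ← map_sum, ← h4, map_mul]
  have h6 : algebraMap D (FractionRing D) (t * s) ≠ 0 := by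
    rw [map_mul]; exact mul_ne_zero hT hS
  rw [mul_div_cancel_left₀ _ h6]

/-- it is unique -/
theorem unique_c (T : FTr (p ^ 1) (FractionRing D)) {c c' : FractionRing D}
    (h : ∀ d : D, T.Tr (c * algebraMap D _ d) = T.Tr (c' * algebraMap D _ d)) : c = c' := by
  rw [← sub_eq_zero]
  apply T.eq_zero (pow_pos hp.out.pos 1)
  intro x
  obtain ⟨⟨a, b⟩, hab⟩ := IsLocalization.surj (nonZeroDivisors D) x
  have hb : algebraMap D (FractionRing D) b ≠ 0 :=
    IsFractionRing.to_map_ne_zero_of_mem_nonZeroDivisors b.2
  have hp1 : p = (p - 1) + 1 := (Nat.sub_add_cancel hp.out.one_le).symm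
  have h1 : algebraMap D (FractionRing D) b ^ p ^ 1 * (x * (c - c')) =
      (c - c') * algebraMap D _ (a * (b : D) ^ (p - 1)) := by
    rw [map_mul, map_pow, ← hab, pow_one]
    conv_lhs => rw [hp1, pow_succ]
    ring
  have h2 := T.Tr_pow_mul (algebraMap D (FractionRing D) b) (x * (c - c'))
  rw [h1, sub_mul, map_sub, h, sub_self] at h2
  exact (mul_eq_zero.1 h2.symm).resolve_left hb

/-- `Hom (F_* D, D)` embeds in the fraction field -/
theorem exists_G (h : IsFFinite p D) :
    ∃ G : FHom p 1 D →ₗ[D] FractionRing D, Function.Injective G := by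
  have : CharP (FractionRing D) p := charP_of_injective_algebraMap
    (IsFractionRing.injective D (FractionRing D)) p
  obtain ⟨T⟩ := t_FTR p 1 (FractionRing D) (ffinite_frac h)
  choose c hc using exists_c T
  refine ⟨⟨⟨c, ?_⟩, ?_⟩, ?_⟩
  · intro ψ ψ'
    apply unique_c T
    intro d
    rw [← hc, add_mul, map_add, ← hc, ← hc, ← map_add]
    rfl
  · intro r ψ
    apply unique_c T
    intro d
    rw [← hc, RingHom.id_apply, Algebra.smul_def, mul_comm (algebraMap D _ r), mul_assoc,
      ← map_mul, ← hc]
    rfl
  · intro ψ ψ' he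
    have he' : c ψ = c ψ' := he
    apply FHom_ext
    intro x
    apply IsFractionRing.injective D (FractionRing D)
    rw [hc, hc, he']

end trace

section finite

variable {R : Type u} [CommRing R]

theorem finite_tensor {M : Type v} [AddCommGroup M] [Module R M] [Module.Finite R M] (n : ℕ) :
    Module.Finite R (⨂[R]^n M) := by
  obtain ⟨t, f, hf⟩ := Module.Finite.exists_fin' R M
  have h1 : Module.Finite R (PiTensorProduct R (fun _ : Fin n => (Fin t → R))) :=
    Module.Finite.of_basis (Basis.piTensorProduct (fun _ : Fin n => Pi.basisFun R (Fin t)))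
  refine Module.Finite.of_surjective
    (PiTensorProduct.map (fun _ : Fin n => f) : PiTensorProduct R (fun _ : Fin n => (Fin t → R)) →ₗ[R] ⨂[R]^n M) ?_
  rw [← LinearMap.range_eq_top, eq_top_iff,
    ← PiTensorProduct.span_tprod_eq_top (R := R) (s := fun _ : Fin n => M), Submodule.span_le]
  rintro _ ⟨m, rfl⟩
  choose x hx using fun i => hf (m i)
  refine ⟨PiTensorProduct.tprod R x, ?_⟩
  rw [PiTensorProduct.map_tprod]
  congr 1
  funext i
  exact hx i

theorem finite_FHom {p : ℕ} [hp : Fact p.Prime] [CharP R p] [IsNoetherianRing R]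
    (h : IsFFinite p R) : Module.Finite R (FHom p 1 R) := by
  classical
  have := finite_Fs (p := p) h
  have h1 : Module.Finite R (Fs p 1 R →ₗ[R] R) := inferInstance
  obtain ⟨s, hs⟩ := h1
  refine ⟨⟨s.image mkHom, ?_⟩⟩
  rw [eq_top_iff]
  intro ψ _
  let f : Fs p 1 R →ₗ[R] R := mkLin ψ.1 (fun a x => ψ.2 a x)
  have hf : f ∈ Submodule.span R (s : Set (Fs p 1 R →ₗ[R] R)) := by rw [hs]; trivial
  have key : ∀ g : Fs p 1 R →ₗ[R] R, g ∈ Submodule.span R (s : Set (Fs p 1 R →ₗ[R] R)) →
      mkHom g ∈ Submodule.span R ((s.image mkHom : Finset _) : Set (FHom p 1 R)) := by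
    intro g hg
    induction hg using Submodule.span_induction with
    | mem x hx =>
      apply Submodule.subset_span
      rw [Finset.coe_image]
      exact ⟨x, hx, rfl⟩
    | zero => exact Submodule.zero_mem _
    | add x y _ _ hx hy => exact Submodule.add_mem _ hx hy
    | smul a x _ hx =>
      have : mkHom (a • x) = (a ^ p) • mkHom x := by
        apply FHom_ext
        intro y
        rw [FHom_smul_apply, mkHom_apply, mkHom_apply, LinearMap.smul_apply, ← map_smul, smul_Fs,
          pow_one]
      rw [this]
      exact Submodule.smul_mem _ _ hx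
  exact key f hf

end finite

section dual

variable {R : Type v} [CommRing R] [IsDomain R] {L : Type w} [Field L] [Algebra R L]
  [IsFractionRing R L] {M : Type v} [AddCommGroup M] [Module R M]

/-- the elements of the dual of a tensor power of a module of rank one -/
theorem dual_key (G : M →ₗ[R] L) (hG : Function.Injective G) (m0 : M) (hm0 : G m0 ≠ 0)
    (n : ℕ) (D : Module.Dual R (⨂[R]^n M)) : ∃ h : L, ∀ m : Fin n → M,
      h * ∏ i, G (m i) = algebraMap R L (D (PiTensorProduct.tprod R m)) := by
  classical
  have inj := IsFractionRing.injective R L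
  let x0 : ⨂[R]^n M := PiTensorProduct.tprod R (fun _ : Fin n => m0)
  let h : L := algebraMap R L (D x0) / (G m0) ^ n
  refine ⟨h, ?_⟩
  intro m
  have hc : ∀ i, ∃ c c' : R, c ≠ 0 ∧ c • m i = c' • m0 := by
    intro i
    obtain ⟨⟨a, s⟩, hs⟩ := IsLocalization.surj (nonZeroDivisors R) (G (m i) / G m0)
    refine ⟨s, a, nonZeroDivisors.ne_zero s.2, hG ?_⟩
    rw [map_smul, map_smul, Algebra.smul_def, Algebra.smul_def, ← hs]
    field_simp
  choose c c' hc0 hcc using hc
  have e1 : (∏ i, c i) • PiTensorProduct.tprod R m =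
      (∏ i, c' i) • x0 := by
    rw [← MultilinearMap.map_smul_univ, ← MultilinearMap.map_smul_univ]
    congr 1
    funext i
    exact hcc i
  have e2 := congrArg (fun z => algebraMap R L (D z)) e1
  simp only [map_smul, smul_eq_mul, map_mul] at e2
  have e3 : algebraMap R L (∏ i, c i) ≠ 0 := by
    intro h
    have : ∏ i, c i = 0 := inj (by rw [h, map_zero])
    rw [Finset.prod_eq_zero_iff] at this
    obtain ⟨i, _, hi⟩ := this
    exact hc0 i hi
  apply mul_left_cancel₀ e3
  rw [e2]
  have e4 : (∏ i, algebraMap R L (c i)) * ∏ i, G (m i) =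
      (∏ i, algebraMap R L (c' i)) * (G m0) ^ n := by
    have : ∀ i, algebraMap R L (c i) * G (m i) = algebraMap R L (c' i) * G m0 := by
      intro i
      have := congrArg G (hcc i)
      rw [map_smul, map_smul, Algebra.smul_def, Algebra.smul_def] at this
      exact this
    rw [← Finset.prod_mul_distrib, Finset.prod_congr rfl (fun i _ => this i),
      Finset.prod_mul_distrib, Finset.prod_const, Finset.card_univ, Fintype.card_fin]
  rw [map_prod, map_prod, mul_left_comm, e4]
  simp only [h]
  field_simp

/-- an element of the dual from an element of the fraction field -/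
theorem exists_dual (G : M →ₗ[R] L) (n : ℕ) (v : L)
    (h1 : ∀ m : Fin n → M, ∃ r : R, v * ∏ i, G (m i) = algebraMap R L r) :
    ∃ D : Module.Dual R (⨂[R]^n M), ∀ m : Fin n → M,
      v * ∏ i, G (m i) = algebraMap R L (D (PiTensorProduct.tprod R m)) := by
  classical
  have inj := IsFractionRing.injective R L
  let P : MultilinearMap R (fun _ : Fin n => M) L :=
    (LinearMap.mulLeft R v).compMultilinearMap
      ((MultilinearMap.mkPiAlgebra R (Fin n) L).compLinearMap (fun _ => G))
  have hP : ∀ m, P m = v * ∏ i, G (m i) := fun m => rfl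
  let F : (⨂[R]^n M) →ₗ[R] L := PiTensorProduct.lift P
  have hF : ∀ m, F (PiTensorProduct.tprod R m) = v * ∏ i, G (m i) := by
    intro m
    rw [← hP]
    exact PiTensorProduct.lift.tprod m
  have hrange : ∀ x, F x ∈ LinearMap.range (Algebra.linearMap R L) := by
    intro x
    have hx : x ∈ Submodule.span R (Set.range (PiTensorProduct.tprod R (s := fun _ : Fin n => M))) := by
      rw [PiTensorProduct.span_tprod_eq_top]
      trivial
    induction hx using Submodule.span_induction with
    | mem y hy =>
      obtain ⟨m, rfl⟩ := hy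
      obtain ⟨r, hr⟩ := h1 m
      exact ⟨r, by rw [hF, hr]; rfl⟩
    | zero => rw [map_zero]; exact Submodule.zero_mem _
    | add x y _ _ hx hy => rw [map_add]; exact Submodule.add_mem _ hx hy
    | smul r x _ hx => rw [map_smul]; exact Submodule.smul_mem _ _ hx
  have hinj' : Function.Injective (Algebra.linearMap R L) := inj
  let F' : Module.Dual R (⨂[R]^n M) :=
    (LinearEquiv.ofInjective (Algebra.linearMap R L) hinj').symm.toLinearMap.comp
      (F.codRestrict _ hrange)
  have hF' : ∀ x, algebraMap R L (F' x) = F x := by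
    intro x
    have := LinearEquiv.apply_symm_apply (LinearEquiv.ofInjective (Algebra.linearMap R L) hinj')
      (F.codRestrict _ hrange x)
    exact congrArg Subtype.val this
  exact ⟨F', fun m => by rw [hF', hF]⟩

/-- a generator of the dual -/
theorem dual_gen (G : M →ₗ[R] L) (hG : Function.Injective G) (m0 : M) (hm0 : G m0 ≠ 0)
    (n : ℕ) (e : Module.Dual R (⨂[R]^n M) ≃ₗ[R] R) : ∃ v : L, v ≠ 0 ∧
      (∀ m : Fin n → M, ∃ r : R, v * ∏ i, G (m i) = algebraMap R L r) ∧
      ∀ h : L, (∀ m : Fin n → M, ∃ r : R, h * ∏ i, G (m i) = algebraMap R L r) →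
        ∃ r : R, h = v * algebraMap R L r := by
  have hn : (G m0) ^ n ≠ 0 := pow_ne_zero _ hm0
  have hprod : ∏ _i : Fin n, G m0 = (G m0) ^ n := by
    rw [Finset.prod_const, Finset.card_univ, Fintype.card_fin]
  have hext : ∀ D D' : Module.Dual R (⨂[R]^n M),
      (∀ m : Fin n → M, D (PiTensorProduct.tprod R m) = D' (PiTensorProduct.tprod R m)) → D = D' := by
    intro D D' h
    apply PiTensorProduct.ext
    ext m
    exact h m
  obtain ⟨v, hv⟩ := dual_key G hG m0 hm0 n (e.symm 1)
  have inj := IsFractionRing.injective R L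
  refine ⟨v, ?_, fun m => ⟨_, hv m⟩, ?_⟩
  · rintro rfl
    have h0 : e.symm 1 = 0 := by
      apply hext
      intro m
      apply inj
      rw [← hv m, zero_mul, LinearMap.zero_apply, map_zero]
    have h1 := congrArg e h0
    rw [LinearEquiv.apply_symm_apply, map_zero] at h1
    exact one_ne_zero h1
  · intro h hh
    obtain ⟨D, hD⟩ := exists_dual G n h hh
    refine ⟨e D, ?_⟩
    have h1 : D = e D • e.symm 1 := by
      rw [← map_smul, smul_eq_mul, mul_one, LinearEquiv.symm_apply_apply]
    have h2 := hD (fun _ => m0)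
    rw [h1, LinearMap.smul_apply, smul_eq_mul, map_mul, ← hv (fun _ => m0), hprod] at h2
    apply mul_right_cancel₀ hn
    rw [h2]
    ring

end dual

section span

variable {S : Type u} [CommRing S] {M : Type v} [AddCommGroup M] [Module S M] {L : Type w}
  [AddCommGroup L] [Module S L] {X : Type*} {n : ℕ}

/-- a submodule contains the values of a multilinear map if it contains those at generators -/
theorem span_multi (Q : MultilinearMap S (fun _ : Fin n => M) L) (ext : X → M)
    (hspan : Submodule.span S (Set.range ext) = ⊤) (N : Submodule S L)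
    (h : ∀ m : Fin n → X, Q (fun i => ext (m i)) ∈ N) (m : Fin n → M) : Q m ∈ N := by
  classical
  suffices H : ∀ (s : Finset (Fin n)) (m : Fin n → M), (∀ i, i ∉ s → m i ∈ Set.range ext) →
      Q m ∈ N from H Finset.univ m (fun i hi => absurd (Finset.mem_univ i) hi)
  intro s
  induction s using Finset.induction_on with
  | empty =>
    intro m hm
    choose x hx using fun i => hm i (Finset.notMem_empty i)
    have : m = fun i => ext (x i) := funext fun i => (hx i).symm
    rw [this]
    exact h x
  | insert a s ha ih =>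
    intro m hm
    have key : ∀ x : M, Q (Function.update m a x) ∈ N := by
      intro x
      have hx : x ∈ Submodule.span S (Set.range ext) := by rw [hspan]; trivial
      induction hx using Submodule.span_induction with
      | mem y hy =>
        apply ih
        intro i hi
        by_cases hia : i = a
        · subst hia
          rw [Function.update_self]
          exact hy
        · rw [Function.update_of_ne hia]
          apply hm
          rw [Finset.mem_insert, not_or]
          exact ⟨hia, hi⟩
      | zero =>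
        rw [Q.map_update_zero]
        exact Submodule.zero_mem _
      | add y z _ _ hy hz =>
        rw [Q.map_update_add]
        exact Submodule.add_mem _ hy hz
      | smul c y _ hy =>
        rw [Q.map_update_smul]
        exact Submodule.smul_mem _ _ hy
    have := key (m a)
    rwa [Function.update_eq_self] at this

/-- a linear map on a tensor power with values in a subring -/
theorem exists_lift {R : Type u} [CommRing R] {M : Type v} [AddCommGroup M] [Module R M]
    {S : Type*} [CommRing S] [Algebra R S] {L : Type*} [CommRing L] [Algebra R L] [Algebra S L]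
    [IsScalarTower R S L] (inj : Function.Injective (algebraMap S L))
    (P : MultilinearMap R (fun _ : Fin n => M) L) (h : ∀ m, ∃ s : S, P m = algebraMap S L s) :
    ∃ F : (⨂[R]^n M) →ₗ[R] S, ∀ m, algebraMap S L (F (PiTensorProduct.tprod R m)) = P m := by
  let F : (⨂[R]^n M) →ₗ[R] L := PiTensorProduct.lift P
  have hF : ∀ m, F (PiTensorProduct.tprod R m) = P m := fun m => PiTensorProduct.lift.tprod m
  let a : S →ₗ[R] L := (IsScalarTower.toAlgHom R S L).toLinearMap
  have ha : ∀ s, a s = algebraMap S L s := fun s => rfl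
  have hrange : ∀ x, F x ∈ LinearMap.range a := by
    intro x
    have hx : x ∈ Submodule.span R (Set.range (PiTensorProduct.tprod R (s := fun _ : Fin n => M))) := by
      rw [PiTensorProduct.span_tprod_eq_top]
      trivial
    induction hx using Submodule.span_induction with
    | mem y hy =>
      obtain ⟨m, rfl⟩ := hy
      obtain ⟨r, hr⟩ := h m
      exact ⟨r, by rw [hF, hr, ha]⟩
    | zero => rw [map_zero]; exact Submodule.zero_mem _
    | add x y _ _ hx hy => rw [map_add]; exact Submodule.add_mem _ hx hy
    | smul r x _ hx => rw [map_smul]; exact Submodule.smul_mem _ _ hx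
  have hinj' : Function.Injective a := inj
  refine ⟨(LinearEquiv.ofInjective a hinj').symm.toLinearMap.comp (F.codRestrict _ hrange), ?_⟩
  intro m
  have := LinearEquiv.apply_symm_apply (LinearEquiv.ofInjective a hinj')
    (F.codRestrict _ hrange (PiTensorProduct.tprod R m))
  rw [← hF]
  exact congrArg Subtype.val this

end span

theorem t_DESC : S_DESC.{u} := by
  classical
  intro p _ R S _ _ _ _ _ _ _ _ _ _ _ _ hR hS ⟨ext, w, hext, hw, hspan⟩ ⟨n, hn, ⟨e⟩⟩
  obtain ⟨GR, hGR⟩ := exists_G hR
  obtain ⟨GS, hGS⟩ := exists_G hS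
  have hinj : Function.Injective (algebraMap R S) := by
    rw [RingHom.injective_iff_ker_eq_bot]
    have := Ideal.comap_map_eq_self_of_faithfullyFlat (B := S) (⊥ : Ideal R)
    rwa [Ideal.map_bot] at this
  have hinjR := IsFractionRing.injective R (FractionRing R)
  have hinjS := IsFractionRing.injective S (FractionRing S)
  let g : R →+* FractionRing S := (algebraMap S (FractionRing S)).comp (algebraMap R S)
  have hg : Function.Injective g := hinjS.comp hinj
  let j : FractionRing R →+* FractionRing S := IsFractionRing.lift hg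
  have hj : ∀ r : R, j (algebraMap R _ r) = algebraMap S _ (algebraMap R S r) := by
    intro r
    exact IsFractionRing.lift_algebraMap hg r
  have hjinj : Function.Injective j := j.injective
  -- a nonzero element
  obtain ⟨m0, hm0⟩ : ∃ m0 : FHom p 1 R, m0 ≠ 0 := by
    by_contra hcon
    push Not at hcon
    have h1 : ∀ ψ : FHom p 1 S, ψ = 0 := by
      intro ψ
      have hψ : ψ ∈ Submodule.span S (Set.range ext) := by rw [hspan]; trivial
      have h2 : Submodule.span S (Set.range ext) ≤ ⊥ := by
        rw [Submodule.span_le]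
        rintro _ ⟨m, rfl⟩
        rw [hcon m, map_zero]
        exact Submodule.zero_mem _
      exact (Submodule.mem_bot S).1 (h2 hψ)
    have h0 : e.symm 1 = 0 := by
      apply PiTensorProduct.ext
      ext m
      rw [LinearMap.compMultilinearMap_apply, LinearMap.compMultilinearMap_apply,
        MultilinearMap.map_coord_zero _ (⟨0, hn⟩ : Fin n) (h1 _), map_zero, map_zero]
    have h1 := congrArg e h0
    rw [LinearEquiv.apply_symm_apply, map_zero] at h1
    exact one_ne_zero h1
  have hR0 : GR m0 ≠ 0 := fun h => hm0 (hGR (by rw [h, map_zero]))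
  have hjR0 : j (GR m0) ≠ 0 := by rw [Ne, map_eq_zero]; exact hR0
  have hext0 : ext m0 ≠ 0 := by
    intro h
    apply hm0
    apply FHom_ext
    intro r
    apply hinj
    rw [← hw, h]
    exact (map_zero _).symm
  have hS0 : GS (ext m0) ≠ 0 := fun h => hext0 (hGS (by rw [h, map_zero]))
  let κ : FractionRing S := GS (ext m0) / j (GR m0)
  have hκ : κ ≠ 0 := div_ne_zero hS0 hjR0
  have hκm : ∀ m, GS (ext m) = κ * j (GR m) := by
    intro m
    obtain ⟨⟨a, s⟩, hs⟩ := IsLocalization.surj (nonZeroDivisors R) (GR m / GR m0)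
    have hs0 : (s : R) ≠ 0 := nonZeroDivisors.ne_zero s.2
    have h1 : (s : R) • m = a • m0 := by
      apply hGR
      rw [map_smul, map_smul, Algebra.smul_def, Algebra.smul_def, ← hs]
      field_simp
    have h2 := congrArg (fun x => GS (ext x)) h1
    simp only [hext, map_smul, Algebra.smul_def] at h2
    have h3 := congrArg (fun x => j (GR x)) h1
    simp only [map_smul, Algebra.smul_def, map_mul, hj] at h3
    have h4 : algebraMap S (FractionRing S) (algebraMap R S s) ≠ 0 := by
      rw [Ne, IsFractionRing.to_map_eq_zero_iff, map_eq_zero_iff _ hinj]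
      exact hs0
    apply mul_left_cancel₀ h4
    rw [h2, mul_left_comm, h3]
    simp only [κ]
    field_simp
  let G : FHom p 1 S →ₗ[S] FractionRing S := (LinearMap.mulLeft S κ⁻¹).comp GS
  have hG : ∀ ψ, G ψ = κ⁻¹ * GS ψ := fun _ => rfl
  have hGinj : Function.Injective G := by
    intro a b h
    rw [hG, hG] at h
    exact hGS (mul_left_cancel₀ (inv_ne_zero hκ) h)
  have hGext : ∀ m, G (ext m) = j (GR m) := by
    intro m
    rw [hG, hκm, inv_mul_cancel_left₀ hκ]
  obtain ⟨v, hv, h1, h2⟩ := dual_gen G hGinj (ext m0) (by rw [hGext]; exact hjR0) n e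
  -- factorization
  have := finite_FHom hR
  have := finite_tensor (R := R) (M := FHom p 1 R) n
  have : Module.FinitePresentation R (⨂[R]^n (FHom p 1 R)) := Module.finitePresentation_of_finite R _
  have hflat : Module.Flat R S := inferInstance
  let gg : FHom p 1 R →ₗ[R] FractionRing S :=
    { toFun := fun m => G (ext m)
      map_add' := by intro a b; rw [map_add, map_add]
      map_smul' := by
        intro c a
        rw [hext, map_smul, RingHom.id_apply, algebraMap_smul] }
  have hgg : ∀ m, gg m = j (GR m) := hGext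
  let P : MultilinearMap R (fun _ : Fin n => FHom p 1 R) (FractionRing S) :=
    (LinearMap.mulLeft R v).compMultilinearMap
      ((MultilinearMap.mkPiAlgebra R (Fin n) (FractionRing S)).compLinearMap (fun _ => gg))
  have hP : ∀ m, P m = v * ∏ i, G (ext (m i)) := fun m => rfl
  obtain ⟨F, hF⟩ := exists_lift hinjS P (fun m => h1 (fun i => ext (m i)))
  obtain ⟨k, f2, f3, hf⟩ := Module.Flat.exists_factorization_of_finitePresentation F
  choose h hh using fun i : Fin k => dual_key GR hGR m0 hR0 n ((Finsupp.lapply i).comp f2)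
  have hvs : v = ∑ i, algebraMap S (FractionRing S) (f3 (Finsupp.single i 1)) * j (h i) := by
    have e1 := hF (fun _ => m0)
    rw [hP] at e1
    have e2 : F (PiTensorProduct.tprod R (fun _ : Fin n => m0)) = ∑ i, f3 (Finsupp.single i 1) *
        algebraMap R S (f2 (PiTensorProduct.tprod R (fun _ : Fin n => m0)) i) := by
      rw [hf, LinearMap.comp_apply]
      conv_lhs => rw [← Finsupp.univ_sum_single (f2 (PiTensorProduct.tprod R (fun _ : Fin n => m0)))]
      rw [map_sum]
      apply Finset.sum_congr rfl
      intro i _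
      have : Finsupp.single i (f2 (PiTensorProduct.tprod R (fun _ : Fin n => m0)) i) =
          (f2 (PiTensorProduct.tprod R (fun _ : Fin n => m0)) i) • (Finsupp.single i (1 : R)) := by
        rw [Finsupp.smul_single, smul_eq_mul, mul_one]
      rw [this, map_smul, Algebra.smul_def, mul_comm]
    have e3 : ∏ _i : Fin n, G (ext m0) = (j (GR m0)) ^ n := by
      rw [Finset.prod_const, Finset.card_univ, Fintype.card_fin, hGext]
    have e4 : ∀ i, h i * GR m0 ^ n =
        algebraMap R _ (f2 (PiTensorProduct.tprod R (fun _ : Fin n => m0)) i) := by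
      intro i
      have := hh i (fun _ => m0)
      rw [Finset.prod_const, Finset.card_univ, Fintype.card_fin] at this
      exact this
    apply mul_right_cancel₀ (pow_ne_zero n hjR0)
    rw [e2, map_sum, e3] at e1
    rw [← e1, Finset.sum_mul]
    apply Finset.sum_congr rfl
    intro i _
    rw [map_mul, ← hj, ← e4, map_mul, map_pow, mul_assoc]
  -- the `h i` are multiples of `v`
  have hmem : ∀ i, ∀ m : Fin n → FHom p 1 S, ∃ r : S,
      j (h i) * ∏ l, G (m l) = algebraMap S (FractionRing S) r := by
    intro i m
    let Q : MultilinearMap S (fun _ : Fin n => FHom p 1 S) (FractionRing S) :=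
      (LinearMap.mulLeft S (j (h i))).compMultilinearMap
        ((MultilinearMap.mkPiAlgebra S (Fin n) (FractionRing S)).compLinearMap (fun _ => G))
    have hQ : ∀ m, Q m = j (h i) * ∏ l, G (m l) := fun m => rfl
    have h5 := span_multi Q ext hspan (LinearMap.range (Algebra.linearMap S (FractionRing S))) (by
      intro m
      rw [hQ]
      simp only [hGext]
      rw [← map_prod, ← map_mul, hh i m, hj]
      exact ⟨_, rfl⟩) m
    obtain ⟨r, hr⟩ := h5
    exact ⟨r, by rw [← hQ, ← hr]; rfl⟩
  choose t ht using fun i => h2 (j (h i)) (hmem i)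
  have hsum : ∑ i, f3 (Finsupp.single i 1) * t i = 1 := by
    apply hinjS
    apply mul_left_cancel₀ hv
    rw [map_one, mul_one, map_sum, Finset.mul_sum]
    conv_rhs => rw [hvs]
    apply Finset.sum_congr rfl
    intro i _
    rw [ht, map_mul]
    ring
  obtain ⟨i, hi⟩ : ∃ i, IsUnit (t i) := by
    by_contra hcon
    push Not at hcon
    have h6 : (1 : S) ∈ maximalIdeal S := by
      rw [← hsum]
      apply Submodule.sum_mem
      intro i _
      exact Ideal.mul_mem_left _ _ ((IsLocalRing.mem_maximalIdeal _).2 (hcon i))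
    exact (Ideal.ne_top_iff_one _).1 (maximalIdeal.isMaximal S).ne_top h6
  have hi0 : h i ≠ 0 := by
    intro h0
    have := ht i
    rw [h0, map_zero] at this
    rcases mul_eq_zero.1 this.symm with h7 | h7
    · exact hv h7
    · rw [IsFractionRing.to_map_eq_zero_iff] at h7
      exact hi.ne_zero h7
  refine ⟨n, hn, dual_tensor_equiv GR hGR m0 hR0 n (h i) hi0 (fun m => ⟨_, hh i m⟩) ?_⟩
  intro x hx
  obtain ⟨c, hc⟩ := h2 (j x) (by
    intro m
    let Q : MultilinearMap S (fun _ : Fin n => FHom p 1 S) (FractionRing S) :=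
      (LinearMap.mulLeft S (j x)).compMultilinearMap
        ((MultilinearMap.mkPiAlgebra S (Fin n) (FractionRing S)).compLinearMap (fun _ => G))
    have hQ : ∀ m, Q m = j x * ∏ l, G (m l) := fun m => rfl
    have h5 := span_multi Q ext hspan (LinearMap.range (Algebra.linearMap S (FractionRing S))) (by
      intro m
      rw [hQ]
      simp only [hGext]
      obtain ⟨r, hr⟩ := hx m
      rw [← map_prod, ← map_mul, hr, hj]
      exact ⟨_, rfl⟩) m
    obtain ⟨r, hr⟩ := h5
    exact ⟨r, by rw [← hQ, ← hr]; rfl⟩)
  -- `x / h i` is in `S` and in the fraction field of `R`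
  obtain ⟨u, hu⟩ := hi
  have hxc : j x = j (h i) * algebraMap S _ (c * ↑u⁻¹) := by
    rw [hc, ht i, mul_assoc, ← map_mul, ← hu]
    congr 2
    rw [mul_left_comm, Units.mul_inv, mul_one]
  obtain ⟨⟨a, b⟩, hab⟩ := IsLocalization.surj (nonZeroDivisors R) (x / h i)
  have hb : algebraMap R (FractionRing R) b ≠ 0 :=
    IsFractionRing.to_map_ne_zero_of_mem_nonZeroDivisors b.2
  have h8 : algebraMap R S a ∈ (Ideal.span {(b : R)}).map (algebraMap R S) := by
    rw [Ideal.map_span, Set.image_singleton, Ideal.mem_span_singleton']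
    refine ⟨c * ↑u⁻¹, ?_⟩
    apply hinjS
    have h9 := congrArg j hab
    simp only [map_mul, hj, map_div₀] at h9
    rw [map_mul, ← h9, hxc]
    have : j (h i) ≠ 0 := by rw [Ne, map_eq_zero]; exact hi0
    rw [mul_div_cancel_left₀ _ this]
  have h10 : a ∈ Ideal.span {(b : R)} := by
    rw [← Ideal.comap_map_eq_self_of_faithfullyFlat (B := S) (Ideal.span {(b : R)})]
    exact h8
  rw [Ideal.mem_span_singleton'] at h10
  obtain ⟨r, hr⟩ := h10
  refine ⟨r, ?_⟩
  have h11 : x / h i = algebraMap R _ r := by
    apply mul_right_cancel₀ hb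
    have : x / h i * algebraMap R (FractionRing R) b = algebraMap R _ a := hab
    rw [this, ← map_mul, hr]
  rw [← h11, mul_div_cancel₀ _ hi0]

end Run7.h622.P889
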